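import Mathlib
import Pool.Agent.Q20.CY.A
import Pool.Agent.Q20.CY.B

/-!
# The cyclopolytope `N_105` is not reflexive

The polar of `N_105` is the polytope of the functions `f ≤ 1` on `ℤ/105` whose sums over the cosets of the subgroups
of order 3, 5 and 7 vanish. With `g = 1 - f` it is a transportation polytope of `3 × 5 × 7` tables with nonnegative
entries and all line sums `3`, `5`, `7`. It has vertices with entries in `(1/2) ℤ`; one of them is used here.
-/

set_option autoImplicit false

namespace Pool.Agent.Results.MP_c80912_nt.NotReflexive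

open Finset Polynomial

/-- The point `a^(r)`: the coefficients of the remainder of `X ^ r` on division by the `k`-th cyclotomic
polynomial. -/
noncomputable def point (k r : ℕ) : Fin (Nat.totient k) → ℝ :=
  fun s => ((((X : ℤ[X]) ^ r) %ₘ cyclotomic k ℤ).coeff (s : ℕ) : ℝ)

/-- The cyclopolytope `N_k`, the convex hull of the points `a^(r)`, `0 ≤ r < k`. -/
noncomputable def cyclopolytope (k : ℕ) : Set (Fin (Nat.totient k) → ℝ) :=
  convexHull ℝ {x | ∃ r < k, x = point k r}

/-- The polar of a set in `ℝ^d`. -/
def polar {d : ℕ} (P : Set (Fin d → ℝ)) : Set (Fin d → ℝ) :=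
  {y | ∀ x ∈ P, ∑ i, x i * y i ≤ 1}

/-- A polytope with vertices in the lattice `ℤ^d` is reflexive if `0` is in its interior (in particular it has
dimension `d`) and all vertices of its polar are in `ℤ^d`. -/
def IsReflexive {d : ℕ} (P : Set (Fin d → ℝ)) : Prop :=
  (0 : Fin d → ℝ) ∈ interior P ∧ ∀ v ∈ (polar P).extremePoints ℝ, ∀ i, ∃ n : ℤ, v i = n

open Pool.Agent.Q20.CY in
theorem sum_point (r : ℕ) (y : ℕ → ℝ) :
    ∑ i : Fin (Nat.totient 105), point 105 r i * y i =
      ∑ s ∈ range 48, ((rows r).getD s 0 : ℝ) * y s := by
  rw [← totient105, ← Fin.sum_univ_eq_sum_range (fun s => ((rows r).getD s 0 : ℝ) * y s)]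
  apply sum_congr rfl
  intro i _
  have hi : (i : ℕ) < 48 := by rw [← totient105]; exact i.2
  unfold point
  rw [coeff_eq r i hi]

open Pool.Agent.Q20.CY in
theorem dot_eq (u v : List ℤ) (n : ℕ) (hu : u.length = n) (hv : v.length = n) :
    dot u v = ∑ s ∈ range n, u.getD s 0 * v.getD s 0 := by
  unfold dot
  induction n generalizing u v with
  | zero =>
    rw [List.length_eq_zero_iff] at hu
    subst hu
    simp
  | succ n ih =>
    match u, v, hu, hv with
    | a :: u, b :: v, hu, hv =>
      rw [List.zipWith_cons_cons, List.sum_cons, ih u v (by simpa using hu) (by simpa using hv),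
        sum_range_succ']
      simp only [List.getD_cons_succ, List.getD_cons_zero]
      ring

open Pool.Agent.Q20.CY in
theorem lc_sum (w : ℕ → ℝ) (rs : List (List ℤ))
    (h : ∀ r ∈ rs, r.length = 48 ∧ ∑ s ∈ range 48, (r.getD s 0 : ℝ) * w s = 0) (cs : List ℤ) :
    (lc cs rs).length = 48 ∧ ∑ s ∈ range 48, ((lc cs rs).getD s 0 : ℝ) * w s = 0 := by
  induction rs generalizing cs with
  | nil =>
    have e : lc cs [] = List.replicate 48 0 := by cases cs <;> rfl
    rw [e]
    refine ⟨List.length_replicate, sum_eq_zero ?_⟩
    intro s hs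
    rw [List.getD_replicate _ (mem_range.mp hs)]
    simp
  | cons r rs ih =>
    cases cs with
    | nil =>
      have e : lc [] (r :: rs) = List.replicate 48 0 := rfl
      rw [e]
      refine ⟨List.length_replicate, sum_eq_zero ?_⟩
      intro s hs
      rw [List.getD_replicate _ (mem_range.mp hs)]
      simp
    | cons c cs =>
      obtain ⟨h1, h2⟩ := ih (fun r' hr' => h r' (by simp [hr'])) cs
      obtain ⟨h3, h4⟩ := h r (by simp)
      have e : lc (c :: cs) (r :: rs) = List.zipWith (fun x y => c * x + y) r (lc cs rs) := rfl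
      have hl : (List.zipWith (fun x y => c * x + y) r (lc cs rs)).length = 48 := by
        rw [List.length_zipWith, h1, h3]; rfl
      rw [e]
      refine ⟨hl, ?_⟩
      have h5 : ∀ s ∈ range 48, (((List.zipWith (fun x y => c * x + y) r (lc cs rs)).getD s 0 : ℤ) : ℝ) * w s
          = c * ((r.getD s 0 : ℝ) * w s) + ((lc cs rs).getD s 0 : ℝ) * w s := by
        intro s hs
        have hs' := mem_range.mp hs
        rw [List.getD_eq_getElem _ _ (by rw [hl]; exact hs'), List.getElem_zipWith,
          List.getD_eq_getElem _ _ (by rw [h3]; exact hs'),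
          List.getD_eq_getElem _ _ (by rw [h1]; exact hs')]
        push_cast
        ring
      rw [sum_congr rfl h5, sum_add_distrib, ← mul_sum, h4, h2]
      simp

open Pool.Agent.Q20.CY in
/-- The vertex. -/
noncomputable def vert : ℕ → ℝ := fun s => (Y.getD s 0 : ℝ) / 2

open Pool.Agent.Q20.CY in
theorem sum_vert {r : ℕ} : ∑ s ∈ range 48, ((rows r).getD s 0 : ℝ) * vert s =
    (dot (rows r) Y : ℝ) / 2 := by
  rw [dot_eq (rows r) Y 48 (rows_length r) Y_length]
  unfold vert
  push_cast
  rw [sum_div]
  apply sum_congr rfl
  intro s _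
  ring

theorem mem_polar_iff (y : Fin (Nat.totient 105) → ℝ) :
    y ∈ polar (cyclopolytope 105) ↔ ∀ r < 105, ∑ i, point 105 r i * y i ≤ 1 := by
  constructor
  · intro h r hr
    exact h _ (subset_convexHull ℝ _ ⟨r, hr, rfl⟩)
  · intro h x hx
    have hc : Convex ℝ {x : Fin (Nat.totient 105) → ℝ | ∑ i, x i * y i ≤ 1} := by
      intro a ha b hb s t hs ht hst
      simp only [Set.mem_ofPred_eq] at ha hb ⊢
      have e : ∑ i, (s • a + t • b) i * y i = s * ∑ i, a i * y i + t * ∑ i, b i * y i := by
        rw [mul_sum, mul_sum, ← sum_add_distrib]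
        apply sum_congr rfl
        intro i _
        simp only [Pi.add_apply, Pi.smul_apply, smul_eq_mul]
        ring
      rw [e]
      nlinarith
    have hsub : {x | ∃ r < 105, x = point 105 r} ⊆
        {x : Fin (Nat.totient 105) → ℝ | ∑ i, x i * y i ≤ 1} := by
      rintro _ ⟨r, hr, rfl⟩
      exact h r hr
    exact convexHull_min hsub hc hx

theorem vertex : ∃ v ∈ (polar (cyclopolytope 105)).extremePoints ℝ, ∃ i, v i = -1 / 2 := by
  have hv : (fun i : Fin (Nat.totient 105) => vert i) ∈
      (polar (cyclopolytope 105)).extremePoints ℝ := by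
    rw [mem_extremePoints]
    constructor
    · rw [mem_polar_iff]
      intro r hr
      rw [sum_point r vert, sum_vert]
      have h1 := Pool.Agent.Q20.CY.chkLe r hr
      rw [← Pool.Agent.Q20.CY.rows_eq r hr] at h1
      have h2 : ((Pool.Agent.Q20.CY.dot (Pool.Agent.Q20.CY.rows r) Pool.Agent.Q20.CY.Y : ℤ) : ℝ) ≤ 2 := by
        exact_mod_cast h1
      linarith
    · -- extremality
      have key : ∀ u ∈ polar (cyclopolytope 105), ∀ v ∈ polar (cyclopolytope 105),
          (fun i : Fin (Nat.totient 105) => vert i) ∈ openSegment ℝ u v →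
          u = (fun i : Fin (Nat.totient 105) => vert i) := by
        intro u hu v hv ho
        obtain ⟨a, b, ha, hb, hab, hy⟩ := ho
        -- extend `u` to a function on `ℕ`
        obtain ⟨w, hw⟩ : ∃ w : ℕ → ℝ, ∀ i : Fin (Nat.totient 105), w i = u i - vert i := by
          refine ⟨fun s => if hs : s < Nat.totient 105 then u ⟨s, hs⟩ - vert s else 0, ?_⟩
          intro i
          simp only [i.2, dif_pos]
        have htight : ∀ r ∈ Pool.Agent.Q20.CY.T,
            ∑ s ∈ range 48, ((Pool.Agent.Q20.CY.rows r).getD s 0 : ℝ) * w s = 0 := by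
          intro r hr
          obtain ⟨hr1, hr2⟩ := Pool.Agent.Q20.CY.chkT r hr
          rw [← Pool.Agent.Q20.CY.rows_eq r hr1] at hr2
          rw [← sum_point r w]
          have e1 : ∑ i : Fin (Nat.totient 105), point 105 r i * vert i = 1 := by
            rw [sum_point r vert, sum_vert, hr2]; norm_num
          have e2 : ∑ i : Fin (Nat.totient 105), point 105 r i * vert i =
              a * ∑ i, point 105 r i * u i + b * ∑ i, point 105 r i * v i := by
            rw [mul_sum, mul_sum, ← sum_add_distrib]
            apply sum_congr rfl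
            intro i _
            have := congrFun hy i
            simp only [Pi.add_apply, Pi.smul_apply, smul_eq_mul] at this
            rw [← this]
            ring
          have hu1 := (mem_polar_iff u).mp hu r hr1
          have hv1 := (mem_polar_iff v).mp hv r hr1
          have e3 : ∑ i, point 105 r i * u i = 1 := by
            rw [e1] at e2
            nlinarith
          calc ∑ i : Fin (Nat.totient 105), point 105 r i * w i
              = ∑ i, point 105 r i * u i - ∑ i : Fin (Nat.totient 105), point 105 r i * vert i := by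
                rw [← sum_sub_distrib]
                apply sum_congr rfl
                intro i _
                rw [hw]
                ring
            _ = 0 := by rw [e3, e1]; ring
        have hrs : ∀ r ∈ Pool.Agent.Q20.CY.TR, r.length = 48 ∧
            ∑ s ∈ range 48, (r.getD s 0 : ℝ) * w s = 0 := by
          intro r hr
          obtain ⟨t, ht, rfl⟩ := List.mem_map.mp hr
          have ht1 := (Pool.Agent.Q20.CY.chkT t ht).1
          rw [← Pool.Agent.Q20.CY.rows_eq t ht1]
          exact ⟨Pool.Agent.Q20.CY.rows_length t, htight t ht⟩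
        have hw0 : ∀ s < 48, w s = 0 := by
          intro s hs
          have h1 := (lc_sum w _ hrs (Pool.Agent.Q20.CY.M.getD s [])).2
          rw [Pool.Agent.Q20.CY.chkM s hs] at h1
          have h2 : ∀ t ∈ range 48, ((((List.range 48).map
              (fun t => if t = s then (2 : ℤ) else 0)).getD t 0 : ℤ) : ℝ) * w t =
              if t = s then 2 * w s else 0 := by
            intro t ht
            have ht' := mem_range.mp ht
            rw [List.getD_eq_getElem _ _ (by simpa using ht')]
            simp only [List.getElem_map, List.getElem_range]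
            split_ifs with hts
            · rw [hts]; push_cast; ring
            · simp
          rw [sum_congr rfl h2, sum_ite_eq' (range 48) s, if_pos (mem_range.mpr hs)] at h1
          linarith
        funext i
        have hi : (i : ℕ) < 48 := by
          rw [← Pool.Agent.Q20.CY.totient105]; exact i.2
        have := hw i
        rw [hw0 i hi] at this
        linarith
      intro u hu v hv ho
      exact ⟨key u hu v hv ho, key v hv u hu (by rw [openSegment_symm]; exact ho)⟩
  have h2 : 2 < Nat.totient 105 := by rw [Pool.Agent.Q20.CY.totient105]; norm_num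
  refine ⟨_, hv, ⟨2, h2⟩, ?_⟩
  change vert 2 = _
  unfold vert
  rw [Pool.Agent.Q20.CY.chkY]
  norm_num

/-- `N_105` is not reflexive: its polar has a vertex with a coordinate `-1/2`. -/
theorem result : ¬ IsReflexive (cyclopolytope 105) ∧
    ∃ v ∈ (polar (cyclopolytope 105)).extremePoints ℝ, ∃ i, v i = -1 / 2 := by
  refine ⟨?_, vertex⟩
  rintro ⟨-, h⟩
  obtain ⟨v, hv, i, hi⟩ := vertex
  obtain ⟨n, hn⟩ := h v hv i
  rw [hn] at hi
  have h4 : (2 * n : ℝ) = -1 := by rw [hi]; norm_num
  have h5 : 2 * n = -1 := by exact_mod_cast h4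
  omega

end Pool.Agent.Results.MP_c80912_nt.NotReflexive
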